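import Pool.Agent.MP_542436_nt.SZ19.Sharp
import Pool.Agent.MP_542436_nt.SZ.UNIF
import Pool.Agent.MP_542436_nt.SZ.D2
import Pool.Agent.MP_542436_nt.SZ.F3
import Pool.Agent.MP_542436_nt.SZ.HT
import Pool.Agent.MP_542436_nt.SZ.UN
import Pool.Agent.MP_542436_nt.SZ.PAIR
import Pool.Agent.MP_542436_nt.SZ.SZ

/-! The bound with the sharp product. -/

set_option autoImplicit false

namespace Pool.Agent.MP_542436_nt.SZ19

open NumberField Polynomial Pool.Agent.MP_542436_nt.SZ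

theorem sqf (s m : ℤ) {x k D : ℤ} (hs : Squarefree s.natAbs) (hD : D ≠ 0) (h : 1728 * D = k)
    (e : 12 * k = m ^ 2 * s) : s.natAbs ≤ 6 * MM x D := by
  refine Nat.le_of_dvd (Nat.mul_pos (by norm_num) (MM_pos _ _)) ?_
  rw [Nat.dvd_iff_prime_pow_dvd_dvd]
  intro p j hp hj
  have c2 : ¬ p ^ 2 ∣ s.natAbs := fun h => hp.not_isUnit (hs p (by rwa [pow_two] at h))
  rcases Nat.eq_zero_or_pos j with rfl | hj0
  · simp
  obtain rfl : j = 1 := by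
    by_contra hh
    exact c2 ((pow_dvd_pow p (by omega)).trans hj)
  rw [pow_one] at hj ⊢
  by_cases h2 : p = 2
  · subst h2; exact Dvd.dvd.mul_right (by norm_num) _
  by_cases h3 : p = 3
  · subst h3; exact Dvd.dvd.mul_right (by norm_num) _
  have n2 : ¬ (p : ℤ) ∣ 2 := fun h =>
    h2 ((Nat.prime_dvd_prime_iff_eq hp Nat.prime_two).1 (by exact_mod_cast h))
  have n3 : ¬ (p : ℤ) ∣ 3 := fun h =>
    h3 ((Nat.prime_dvd_prime_iff_eq hp Nat.prime_three).1 (by exact_mod_cast h))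
  have hv := val_sq hp (c := 12) (by simpa using nd hp n2 n3 2 1) (by omega) e
  rw [val_D hp n2 n3 hD h, val_of hp 1 (s := s) (by rw [pow_one]; exact Int.natCast_dvd.2 hj)
    fun h => c2 (Int.natCast_dvd.1 (by exact_mod_cast h))] at hv
  exact ((dvd_MM hp x hD).1 ⟨_, hv⟩).mul_left _

open D2 in
theorem d2s (x y D : ℤ) (q : ℚ) (hq : q ^ 3 - 3 * x * q + 2 * y = 0) (hD : D ≠ 0)
    (h : 1728 * D = x ^ 3 - y ^ 2) :
    ∃ (M : Type) (_ : Field M) (_ : NumberField M) (a b c : M), Rt x y a b c ∧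
      Module.finrank ℚ M ≤ 2 ∧ (discr M).natAbs ≤ 24 * MM x D := by
  obtain ⟨r, rfl⟩ := int_root x y q hq
  have hr : r ^ 3 - 3 * x * r + 2 * y = 0 := by exact_mod_cast hq
  set g : ℤ := 12 * x - 3 * r ^ 2 with hg
  have hk0 : x ^ 3 - y ^ 2 ≠ 0 := by omega
  have hgk : g * (r ^ 2 - x) ^ 2 = 12 * (x ^ 3 - y ^ 2) := by
    rw [hg]
    linear_combination (-3 * (r ^ 3 - 3 * x * r - 2 * y)) * hr
  have hg0 : g ≠ 0 := by
    intro h0
    rw [h0, zero_mul] at hgk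
    exact hk0 (by linarith)
  obtain ⟨s₀, m, hm, hsq⟩ := Nat.sq_mul_squarefree g.natAbs
  obtain ⟨s, hs, hsm⟩ : ∃ s : ℤ, s.natAbs = s₀ ∧ (m : ℤ) ^ 2 * s = g := by
    have hm' : ((m : ℤ)) ^ 2 * (s₀ : ℤ) = (g.natAbs : ℤ) := by exact_mod_cast hm
    rcases Int.natAbs_eq g with h | h
    · exact ⟨s₀, by simp, by rw [hm', ← h]⟩
    · exact ⟨-s₀, by simp, by rw [mul_neg, hm', ← h]⟩
  have hs₀ : s.natAbs ≤ 6 * MM x D :=
    sqf s (m * (r ^ 2 - x)) (hs ▸ hsq) hD h (by rw [← hgk, ← hsm]; ring)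
  have hs0 : s ≠ 0 := by
    intro h0
    rw [h0, mul_zero] at hsm
    exact hg0 hsm.symm
  by_cases hsqr : ∃ t : ℚ, t ^ 2 = (s : ℚ)
  · obtain ⟨t, ht⟩ := hsqr
    refine ⟨ℚ, inferInstance, inferInstance, _, _, _, rt_of x y r hr ((m : ℚ) * t) ?_, ?_, ?_⟩
    · rw [← hg, ← hsm, mul_pow, ht]; push_cast; ring
    · simp
    · rw [discr_rat]
      have := MM_pos x D
      simp only [Int.natAbs_one]
      omega
  · have hirr : Irreducible (X ^ 2 - C (s : ℚ)) :=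
      X_pow_sub_C_irreducible_of_prime Nat.prime_two (fun b hb => hsqr ⟨b, hb⟩)
    have : Fact (Irreducible (X ^ 2 - C (s : ℚ))) := ⟨hirr⟩
    have hdeg : (X ^ 2 - C (s : ℚ)).natDegree = 2 := natDegree_X_pow_sub_C
    have hfr : Module.finrank ℚ (AdjoinRoot (X ^ 2 - C (s : ℚ))) = 2 := by
      rw [(AdjoinRoot.powerBasis hirr.ne_zero).finrank, AdjoinRoot.powerBasis_dim, hdeg]
    have hθ : (AdjoinRoot.root (X ^ 2 - C (s : ℚ))) ^ 2 =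
        ((s : ℤ) : AdjoinRoot (X ^ 2 - C (s : ℚ))) := by
      have := AdjoinRoot.eval₂_root (X ^ 2 - C (s : ℚ))
      rw [eval₂_sub, eval₂_pow, eval₂_X, eval₂_C, sub_eq_zero] at this
      rw [this]
      simp
    have htr := tr_zero _ s hirr _ hθ
    refine ⟨AdjoinRoot (X ^ 2 - C (s : ℚ)), inferInstance, inferInstance, _, _, _,
      rt_of x y r hr ((m : AdjoinRoot (X ^ 2 - C (s : ℚ))) * AdjoinRoot.root _) ?_, hfr.le, ?_⟩
    · rw [← hg, ← hsm, mul_pow, hθ]; push_cast; ring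
    · have := discr_le _ hfr s hs0 _ hθ htr
      omega

theorem rdk {k D : ℤ} (hD : D ≠ 0) (h : 1728 * D = k) : rd k.natAbs ≤ 6 * rd D.natAbs := by
  refine SZ.prod_le_six _ _ (fun p hp => (Nat.prime_of_mem_primeFactors hp).pos) fun p hp => ?_
  have hpp := Nat.prime_of_mem_primeFactors hp
  have h1 : p ∣ 1728 * D.natAbs := by
    have := Nat.dvd_of_mem_primeFactors hp
    rw [← h, Int.natAbs_mul] at this
    exact this
  rcases (Nat.Prime.dvd_mul hpp).1 h1 with h2 | h2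
  · rcases SZ.prime_dvd_1728 hpp h2 with h3 | h3 <;> simp [h3]
  · exact Finset.mem_union_right _
      (Nat.mem_primeFactors.2 ⟨hpp, h2, Int.natAbs_ne_zero.2 hD⟩)

open PAIR in
theorem pair (ε : ℝ) (hε : 0 < ε) : ∃ C : ℝ, 0 ≤ C ∧ ∀ x y D : ℤ, D ≠ 0 →
    1728 * D = x ^ 3 - y ^ 2 →
    Real.log ((max (|x| ^ 3) (y ^ 2) : ℤ) : ℝ) ≤ Real.log (Int.gcd (x ^ 3) (y ^ 2) : ℝ) +
      C * ((MM x D : ℝ) ^ (1 / 2 + ε) * (rd D.natAbs : ℝ) ^ ε) := by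
  obtain ⟨CU, hCU, hU⟩ := rowUNIF 9 ε hε
  obtain ⟨CH, hCH, hHT⟩ := rowHT 9
  have hUN := rowUN
  refine ⟨CH * (1 + CU * (7776 : ℝ) ^ (1 / 2 + ε) * 36 ^ ε), by positivity, ?_⟩
  intro x y D hD hk'
  have hk : x ^ 3 ≠ y ^ 2 := by omega
  have hρ1 : 1 ≤ rd (x ^ 3 - y ^ 2).natAbs := rd_pos _
  have hr : 6 * rd (x ^ 3 - y ^ 2).natAbs ≠ 0 := by omega
  have hM1 : (1 : ℝ) ≤ MM x D := by exact_mod_cast MM_pos x D
  have hR1 : (1 : ℝ) ≤ rd D.natAbs := by exact_mod_cast rd_pos D.natAbs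
  have key : ∀ (L : Type) [Field L] [NumberField L] (h : ℝ),
      (discr L).natAbs ≤ 7776 * MM x D →
      h ≤ CU * |(discr L : ℝ)| ^ (1 / 2 + ε) *
        ((6 * rd (x ^ 3 - y ^ 2).natAbs : ℕ) : ℝ) ^ ε →
      CH * (1 + h) ≤ CH * (1 + CU * (7776 : ℝ) ^ (1 / 2 + ε) * 36 ^ ε) *
        ((MM x D : ℝ) ^ (1 / 2 + ε) * (rd D.natAbs : ℝ) ^ ε) := by
    intro L _ _ h hd hh
    rw [mul_assoc]
    refine mul_le_mul_of_nonneg_left ?_ hCH
    have e : |(discr L : ℝ)| = ((discr L).natAbs : ℝ) := by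
      rw [Nat.cast_natAbs, Int.cast_abs]
    have h1 : |(discr L : ℝ)| ^ (1 / 2 + ε) ≤
        (7776 : ℝ) ^ (1 / 2 + ε) * (MM x D : ℝ) ^ (1 / 2 + ε) := by
      rw [← Real.mul_rpow (by norm_num) (by positivity)]
      refine Real.rpow_le_rpow (abs_nonneg _) ?_ (by linarith)
      rw [e]
      exact_mod_cast hd
    have h2 : ((6 * rd (x ^ 3 - y ^ 2).natAbs : ℕ) : ℝ) ^ ε ≤
        36 ^ ε * (rd D.natAbs : ℝ) ^ ε := by
      rw [← Real.mul_rpow (by norm_num) (by positivity)]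
      refine Real.rpow_le_rpow (by positivity) ?_ hε.le
      have := rdk hD hk'
      exact_mod_cast (show 6 * rd (x ^ 3 - y ^ 2).natAbs ≤ 36 * rd D.natAbs by omega)
    have h4 : 1 ≤ (MM x D : ℝ) ^ (1 / 2 + ε) * (rd D.natAbs : ℝ) ^ ε :=
      one_le_mul_of_one_le_of_one_le (Real.one_le_rpow hM1 (by linarith))
        (Real.one_le_rpow hR1 hε.le)
    have h5 := mul_le_mul (mul_le_mul_of_nonneg_left h1 hCU) h2 (by positivity) (by positivity)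
    rw [add_mul, one_mul]
    linarith
  by_cases hq : ∀ q : ℚ, q ^ 3 - 3 * x * q + 2 * y ≠ 0
  · obtain ⟨L, M, _, _, _, _, σ₁, σ₂, e, c, hL, hM, he, hrt⟩ := rowF3 x y hq
    obtain ⟨-, -, h1, u1⟩ := lam hUN hrt hk
    obtain ⟨hδ, uδ⟩ := hUN.der L x y e he hk
    have hirr : ∀ q : ℚ, e ≠ q := by
      intro q hq'
      apply hq q
      rw [hq'] at he
      exact_mod_cast he
    have hsq := ratio hrt (hUN.dif M x y _ _ _ hrt hk).1 (hUN.dif M x y _ _ _ (rt_rot hrt) hk).1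
    have hh := hU L M σ₁ σ₂ (-1) (e ^ 2 - x) _ _ (by omega) hM (by norm_num) hr hδ uδ h1 u1
      (by rw [hsq]; simp)
    have := key L _ (d3s hL he hirr hD hk') hh
    have := hHT M x y _ _ _ hM hrt hk
    linarith
  · push Not at hq
    obtain ⟨q, hq⟩ := hq
    obtain ⟨M, _, _, a, b, c, hrt, hM, hd⟩ := d2s x y D q hq hD hk'
    obtain ⟨h0, u0, h1, u1⟩ := lam hUN hrt hk
    have hh := hU M M (RingHom.id M) (RingHom.id M) 0 _ _ _ (by omega) (by omega) (by norm_num) hr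
      h0 u0 h1 u1 (by simp)
    have := key M _ (by omega) hh
    have := hHT M x y _ _ _ (by omega) hrt hk
    linarith

theorem main (ε : ℝ) (hε : 0 < ε) : ∃ C : ℝ, ∀ W : WeierstrassCurve ℤ, W.Δ ≠ 0 →
    (∀ (W' : WeierstrassCurve ℤ) (T : WeierstrassCurve.VariableChange ℚ),
      W'.map (Int.castRingHom ℚ) = T • W.map (Int.castRingHom ℚ) → |W.Δ| ≤ |W'.Δ|) →
    Real.log ((max (|W.c₄| ^ 3) (W.c₆ ^ 2) : ℤ) : ℝ) ≤
      C * ((MM W.c₄ W.Δ : ℝ) ^ (1 / 2 + ε) * (rd W.Δ.natAbs : ℝ) ^ ε) := by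
  obtain ⟨C, hC0, hC⟩ := pair ε hε
  refine ⟨35 / ε * 36 ^ ε + C, fun W hΔ hmin => ?_⟩
  have hc := W.c_relation
  have hxy : W.c₄ ^ 3 ≠ W.c₆ ^ 2 := by omega
  have h1 := hC W.c₄ W.c₆ W.Δ hΔ hc
  have h3 := SZ.gcd_le W.c₄ W.c₆ hxy (by
    intro p hp h12 h18
    obtain ⟨X, hX⟩ := h12
    obtain ⟨Y, hY⟩ := h18
    have hp2 : (2 : ℤ) ≤ p := by exact_mod_cast hp.two_le
    have := SZ.min_le W hΔ hmin ((p : ℤ) ^ 3) X Y (by positivity)
      (by rw [hX]; ring) (by rw [hY]; ring)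
    have h8 : (2 : ℤ) ^ 3 ≤ (p : ℤ) ^ 3 := pow_le_pow_left₀ (by norm_num) hp2 3
    omega)
  have hRK : rd (Int.gcd W.c₄ W.c₆) ≤ rd (W.c₄ ^ 3 - W.c₆ ^ 2).natAbs := by
    refine Nat.le_of_dvd (SZ.rd_pos _) (Finset.prod_dvd_prod_of_subset _ _ _
      (Nat.primeFactors_mono ?_ (Int.natAbs_ne_zero.2 (sub_ne_zero.2 hxy))))
    exact Int.natCast_dvd.1 (dvd_sub (dvd_pow (Int.gcd_dvd_left _ _) (by norm_num))
      (dvd_pow (Int.gcd_dvd_right _ _) (by norm_num)))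
  have hK := rdk hΔ hc
  set R : ℕ := rd (Int.gcd W.c₄ W.c₆) with hRdef
  have hM1 : (1 : ℝ) ≤ MM W.c₄ W.Δ := by exact_mod_cast MM_pos W.c₄ W.Δ
  have h7 : (R : ℝ) ^ ε ≤ 36 ^ ε * (rd W.Δ.natAbs : ℝ) ^ ε := by
    rw [← Real.mul_rpow (by norm_num) (by positivity)]
    refine Real.rpow_le_rpow (by positivity) ?_ hε.le
    exact_mod_cast (show R ≤ 36 * rd W.Δ.natAbs by omega)
  have h8 := Real.log_le_rpow_div (Nat.cast_nonneg R) hε
  have hg0 : 0 < Int.gcd (W.c₄ ^ 3) (W.c₆ ^ 2) := by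
    refine Nat.pos_of_ne_zero fun h0 => ?_
    obtain ⟨a1, a2⟩ := Int.gcd_eq_zero_iff.1 h0
    exact hxy (a1.trans a2.symm)
  have h11 : Real.log (Int.gcd (W.c₄ ^ 3) (W.c₆ ^ 2) : ℝ) ≤ 35 * Real.log (R : ℝ) := by
    have a1 : ((Int.gcd (W.c₄ ^ 3) (W.c₆ ^ 2) : ℕ) : ℝ) ≤ (R : ℝ) ^ 35 := by exact_mod_cast h3
    have a2 : (0 : ℝ) < ((Int.gcd (W.c₄ ^ 3) (W.c₆ ^ 2) : ℕ) : ℝ) := by exact_mod_cast hg0
    have a3 := Real.log_le_log a2 a1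
    rw [Real.log_pow] at a3
    exact_mod_cast a3
  have h9 : (rd W.Δ.natAbs : ℝ) ^ ε ≤
      (MM W.c₄ W.Δ : ℝ) ^ (1 / 2 + ε) * (rd W.Δ.natAbs : ℝ) ^ ε :=
    le_mul_of_one_le_left (by positivity) (Real.one_le_rpow hM1 (by linarith))
  have h10 : 35 * Real.log (R : ℝ) ≤ 35 / ε * 36 ^ ε *
      ((MM W.c₄ W.Δ : ℝ) ^ (1 / 2 + ε) * (rd W.Δ.natAbs : ℝ) ^ ε) := by
    calc _ ≤ 35 * ((R : ℝ) ^ ε / ε) := by linarith
      _ = 35 / ε * (R : ℝ) ^ ε := by ring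
      _ ≤ 35 / ε * (36 ^ ε * (rd W.Δ.natAbs : ℝ) ^ ε) := by gcongr
      _ = 35 / ε * 36 ^ ε * (rd W.Δ.natAbs : ℝ) ^ ε := by ring
      _ ≤ _ := by gcongr
  rw [add_mul]
  linarith

end Pool.Agent.MP_542436_nt.SZ19
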