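import Pool.Agent.MP_542436_nt.SZ.D3

/-! The exact valuations of the discriminant of a cubic field away from six. -/

set_option autoImplicit false

namespace Pool.Agent.MP_542436_nt.SZ19

open NumberField Polynomial Pool.Agent.MP_542436_nt.SZ Pool.Agent.MP_542436_nt.SZ.D3

variable {L : Type} [Field L] [NumberField L]

theorem sq_ds (hL : Module.finrank ℚ L = 3) {a b c d : ℤ} (hF : Fm L a b c d)
    (h0 : ds a b c d ≠ 0) : ∃ m : ℤ, ds a b c d = m ^ 2 * discr L := by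
  obtain ⟨t, ht, hf⟩ := hF
  have ha : a ≠ 0 := by
    rintro rfl
    obtain ⟨h1, h2, h3⟩ := li hL ht (p := d) (q := c) (r := b) (by
      push_cast at hf ⊢; linear_combination hf)
    have h2' : c = 0 := by exact_mod_cast h2
    have h3' : b = 0 := by exact_mod_cast h3
    exact h0 (by simp [ds, h2', h3'])
  have ha' : (a : ℚ) ≠ 0 := by exact_mod_cast ha
  obtain ⟨w, hw⟩ : ∃ w : L, w = a * t := ⟨_, rfl⟩
  obtain ⟨v, hv⟩ : ∃ v : L, v = a * t ^ 2 + b * t := ⟨_, rfl⟩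
  have ww : w * w = a * v - b * w := by rw [hw, hv]; ring
  have wv : w * v = -(c * w) - a * d := by rw [hw, hv]; linear_combination (a : L) * hf
  have vv : v * v = -(c * v) - d * w - b * d := by
    rw [hw, hv]; linear_combination ((a : L) * t + b) * hf
  have hli : LinearIndependent ℚ ![(1 : L), w, v] := by
    rw [Fintype.linearIndependent_iff]
    intro g hg
    rw [Fin.sum_univ_three] at hg
    simp only [Matrix.cons_val_zero, Matrix.cons_val_one, Matrix.cons_val, Algebra.smul_def,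
      eq_ratCast] at hg
    obtain ⟨h1, h2, h3⟩ := li hL ht (p := g 0) (q := g 1 * a + g 2 * b) (r := g 2 * a) (by
      push_cast; rw [hw, hv] at hg; linear_combination hg)
    have g2 : g 2 = 0 := (mul_eq_zero.1 h3).resolve_right ha'
    rw [g2, zero_mul, add_zero] at h2
    have g1 : g 1 = 0 := (mul_eq_zero.1 h2).resolve_right ha'
    intro i; fin_cases i <;> assumption
  let β : Module.Basis (Fin 3) ℚ L := basisOfLinearIndependentOfCardEqFinrank hli (by simp [hL])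
  have hβ : ⇑β = ![(1 : L), w, v] := coe_basisOfLinearIndependentOfCardEqFinrank _ _
  have tw : Algebra.trace ℚ L w = -b := by
    rw [tr_of β w ![![0, 1, 0], ![0, -b, a], ![-(a * d), -c, 0]] (fun j => by
      rw [hβ, Fin.sum_univ_three]
      fin_cases j <;> simp [Algebra.smul_def, ww, wv] <;> ring)]
    simp [Fin.sum_univ_three]
  have tv : Algebra.trace ℚ L v = -(2 * c) := by
    rw [tr_of β v ![![0, 0, 1], ![-(a * d), -c, 0], ![-(b * d), -d, -c]] (fun j => by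
      rw [hβ, Fin.sum_univ_three]
      fin_cases j <;> simp [Algebra.smul_def, vv, mul_comm v w, wv] <;> ring)]
    simp [Fin.sum_univ_three]; ring
  have iw : IsIntegral ℤ w := by
    refine ⟨X ^ 3 + C b * X ^ 2 + C (a * c) * X + C (a ^ 2 * d), by monicity!, ?_⟩
    simp only [eval₂_add, eval₂_mul, eval₂_pow, eval₂_X, eval₂_C]
    simp only [eq_intCast]
    push_cast
    rw [hw]; linear_combination (a : L) ^ 2 * hf
  have iv : IsIntegral ℤ v := by
    have : IsIntegral ℤ (v + c) := by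
      refine ⟨X ^ 3 - C c * X ^ 2 + C (b * d) * X - C (a * d ^ 2), by monicity!, ?_⟩
      simp only [eval₂_add, eval₂_sub, eval₂_mul, eval₂_pow, eval₂_X, eval₂_C]
      simp only [eq_intCast]
      push_cast
      linear_combination (v + c) * vv - (d : L) * wv
    have h2 := this.sub (isIntegral_algebraMap (R := ℤ) (A := L) (x := c))
    simpa using h2
  let W : 𝓞 L := ⟨w, iw⟩
  let V : 𝓞 L := ⟨v, iv⟩
  have hr : Module.finrank ℤ (𝓞 L) = 3 := by rw [RingOfIntegers.rank, hL]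
  let B : Module.Basis (Fin 3) ℤ (𝓞 L) := Module.finBasisOfFinrankEq ℤ (𝓞 L) hr
  let u : Fin 3 → 𝓞 L := ![1, W, V]
  have h1 : Algebra.discr ℤ u = (B.toMatrix u).det ^ 2 * discr L := by
    rw [← discr_eq_discr L B, ← Algebra.discr_of_matrix_vecMul, Module.Basis.toMatrix_map_vecMul]
  have t1 : Algebra.trace ℤ (𝓞 L) 1 = 3 := by
    have := Algebra.trace_algebraMap (R := ℤ) (S := 𝓞 L) 1
    rw [map_one, hr] at this
    simpa using this
  have tW : Algebra.trace ℤ (𝓞 L) W = -b := by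
    have := Algebra.coe_trace_int W
    have e : ((W : 𝓞 L) : L) = w := rfl
    rw [e, tw] at this
    exact_mod_cast this
  have tV : Algebra.trace ℤ (𝓞 L) V = -(2 * c) := by
    have := Algebra.coe_trace_int V
    have e : ((V : 𝓞 L) : L) = v := rfl
    rw [e, tv] at this
    exact_mod_cast this
  have tr : ∀ (z : 𝓞 L) (p q r : ℤ), (z : L) = p + q * w + r * v →
      Algebra.trace ℤ (𝓞 L) z = 3 * p - b * q - 2 * c * r := by
    intro z p q r hz
    have e : z = p • (1 : 𝓞 L) + q • W + r • V := by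
      apply RingOfIntegers.ext
      simp only [zsmul_eq_mul, map_add, map_mul, map_intCast, map_one, mul_one]
      exact hz
    rw [e, map_add, map_add, map_zsmul, map_zsmul, map_zsmul, t1, tW, tV]
    simp only [smul_eq_mul]; ring
  have tWW := tr (W * W) 0 (-b) a (by
    change w * w = _
    rw [ww]; push_cast; ring)
  have tWV := tr (W * V) (-(a * d)) (-c) 0 (by
    change w * v = _
    rw [wv]; push_cast; ring)
  have tVV := tr (V * V) (-(b * d)) (-d) (-c) (by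
    change v * v = _
    rw [vv]; push_cast; ring)
  have h2 : Algebra.discr ℤ u = ds a b c d := by
    rw [Algebra.discr_def, Matrix.det_fin_three]
    simp only [Algebra.traceMatrix_apply, Algebra.traceForm_apply, u, Matrix.cons_val_zero,
      Matrix.cons_val_one, Matrix.cons_val, one_mul, mul_one, mul_comm V W, t1, tW, tV, tWW, tWV,
      tVV, ds]
    ring
  exact ⟨_, by rw [← h2, h1]⟩

theorem val_eq {p : ℕ} (hp : p.Prime) (j : ℕ) {u : ℤ} (hu : ¬ (p : ℤ) ∣ u) :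
    padicValInt p ((p : ℤ) ^ j * u) = j := by
  have := Fact.mk hp
  have hu0 : u ≠ 0 := fun h => hu (h ▸ dvd_zero _)
  have hp0 : (p : ℤ) ^ j ≠ 0 := pow_ne_zero _ (by exact_mod_cast hp.ne_zero)
  rw [padicValInt.mul hp0 hu0, padicValInt.eq_zero_of_not_dvd hu, ← Nat.cast_pow,
    padicValInt.of_nat, padicValNat.prime_pow, add_zero]

theorem val_sq {p : ℕ} (hp : p.Prime) {c k m s : ℤ} (hc : ¬ (p : ℤ) ∣ c) (hk : k ≠ 0)
    (h : c * k = m ^ 2 * s) : padicValInt p k = 2 * padicValInt p m + padicValInt p s := by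
  have := Fact.mk hp
  have hc0 : c ≠ 0 := fun h => hc (h ▸ dvd_zero _)
  have h0 : m ^ 2 * s ≠ 0 := h ▸ mul_ne_zero hc0 hk
  have hm : m ≠ 0 := fun h1 => h0 (by rw [h1]; ring)
  have hs : s ≠ 0 := right_ne_zero_of_mul h0
  have e := congrArg (padicValInt p) h
  rw [padicValInt.mul hc0 hk, padicValInt.eq_zero_of_not_dvd hc, pow_two,
    padicValInt.mul (mul_ne_zero hm hm) hs, padicValInt.mul hm hm] at e
  omega

theorem val_of {p : ℕ} (hp : p.Prime) (j : ℕ) {s : ℤ} (h1 : (p : ℤ) ^ j ∣ s)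
    (h2 : ¬ (p : ℤ) ^ (j + 1) ∣ s) : padicValInt p s = j := by
  obtain ⟨u, rfl⟩ := h1
  refine val_eq hp j fun hu => h2 ?_
  rw [pow_succ]
  exact mul_dvd_mul_left _ hu

theorem nd {p : ℕ} (hp : p.Prime) (n2 : ¬ (p : ℤ) ∣ 2) (n3 : ¬ (p : ℤ) ∣ 3) (i j : ℕ) :
    ¬ (p : ℤ) ∣ 2 ^ i * 3 ^ j := fun h =>
  have hp' : Prime (p : ℤ) := Nat.prime_iff_prime_int.1 hp
  (hp'.dvd_or_dvd h).elim (fun h => n2 (hp'.dvd_of_dvd_pow h)) fun h => n3 (hp'.dvd_of_dvd_pow h)

theorem par (hL : Module.finrank ℚ L = 3) {p : ℕ} (hp : p.Prime) (n2 : ¬ (p : ℤ) ∣ 2)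
    (n3 : ¬ (p : ℤ) ∣ 3) {e : L} {x y : ℤ} (he : e ^ 3 - 3 * x * e + 2 * y = 0)
    (hq : ∀ q : ℚ, e ≠ q) (hk : x ^ 3 ≠ y ^ 2) :
    (∃ t, padicValInt p (x ^ 3 - y ^ 2) = 2 * t + padicValInt p (discr L)) ∧
      ¬ (p : ℤ) ^ 3 ∣ discr L ∧ ((p : ℤ) ∣ discr L → (p : ℤ) ∣ x ^ 3 - y ^ 2) ∧
      ((p : ℤ) ^ 2 ∣ discr L → (p : ℤ) ∣ x) := by
  have hF : Fm L 1 0 (-3 * x) (2 * y) := ⟨e, hq, by push_cast; linear_combination he⟩
  have eD : ds 1 0 (-3 * x) (2 * y) = 2 ^ 2 * 3 ^ 3 * (x ^ 3 - y ^ 2) := by unfold ds; ring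
  have hk0 : x ^ 3 - y ^ 2 ≠ 0 := sub_ne_zero.2 hk
  have h0 : ds 1 0 (-3 * x) (2 * y) ≠ 0 := by rw [eD]; exact mul_ne_zero (by norm_num) hk0
  have hp' : Prime (p : ℤ) := Nat.prime_iff_prime_int.1 hp
  obtain ⟨m, hm⟩ := sq_ds hL hF h0
  refine ⟨⟨_, val_sq hp (nd hp n2 n3 2 3) hk0 (eD ▸ hm)⟩, ?_, fun h => ?_, fun h => ?_⟩
  · refine desc hL hp (m := 3) (by norm_num) (fun a b c d hd hab => ?_) _ _ _ _ _ rfl h0 hF
    by_cases hb : (p : ℤ) ∣ b
    · obtain ⟨b, rfl⟩ := hb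
      exact val2 hp' n3 hd fun ha => hab ⟨ha, dvd_mul_right _ _⟩
    · exact fun h => val1 hp' n2 hd hb ((pow_dvd_pow _ (by norm_num)).trans h)
  · have h1 := h.trans (dvd_ds hL hF h0)
    rw [eD] at h1
    exact (hp'.dvd_or_dvd h1).resolve_left (nd hp n2 n3 2 3)
  · by_contra hx
    refine desc2 hL hp n2 _ _ _ _ _ rfl h0 hF (fun h => ?_) h
    have h4 : (p : ℤ) ∣ 3 ^ 2 * x := by convert h using 1; ring
    exact (hp'.dvd_or_dvd h4).elim (fun h => n3 (hp'.dvd_of_dvd_pow h)) hx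

theorem sharp (hL : Module.finrank ℚ L = 3) {p : ℕ} (hp : p.Prime) (n2 : ¬ (p : ℤ) ∣ 2)
    (n3 : ¬ (p : ℤ) ∣ 3) (hd : (p : ℤ) ^ 2 ∣ discr L) (n : ℕ) :
    ∀ (e : L) (x y : ℤ), padicValInt p (x ^ 3 - y ^ 2) = n → e ^ 3 - 3 * x * e + 2 * y = 0 →
      (∀ q : ℚ, e ≠ q) → x ^ 3 ≠ y ^ 2 → ¬ Odd n ∧ ¬ 3 ∣ n ∧ (p : ℤ) ^ n ∣ x ^ 3 := by
  induction n using Nat.strong_induction_on with
  | _ n ih =>
  intro e x y hn he hq hk
  have := Fact.mk hp
  have hp' : Prime (p : ℤ) := Nat.prime_iff_prime_int.1 hp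
  obtain ⟨⟨t, ht⟩, h3, h1, h2⟩ := par hL hp n2 n3 he hq hk
  rw [hn, val_of hp 2 hd h3] at ht
  have hodd : ¬ Odd n := by rw [Nat.odd_iff]; omega
  refine ⟨hodd, ?_⟩
  have hx := h2 hd
  have hpk := h1 ((dvd_pow_self _ two_ne_zero).trans hd)
  have hy : (p : ℤ) ∣ y :=
    hp'.dvd_of_dvd_pow ((dvd_sub_right (hx.trans (dvd_pow_self x three_ne_zero))).1 hpk)
  obtain ⟨X, rfl⟩ := hx
  obtain ⟨Y, rfl⟩ := hy
  by_cases c1 : (p : ℤ) ∣ Y
  · obtain ⟨Z, rfl⟩ := c1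
    by_cases c2 : (p : ℤ) ∣ X
    · obtain ⟨X, rfl⟩ := c2
      by_cases c3 : (p : ℤ) ∣ Z
      · obtain ⟨Z, rfl⟩ := c3
        have hp0 : (p : L) ≠ 0 := by exact_mod_cast hp.ne_zero
        have e1 : ((p : ℤ) * (p * X)) ^ 3 - (p * (p * (p * Z))) ^ 2 =
            (p : ℤ) ^ 6 * (X ^ 3 - Z ^ 2) := by ring
        have hk' : X ^ 3 ≠ Z ^ 2 := fun h => hk (by linear_combination (p : ℤ) ^ 6 * h)
        have e2 : n = 6 + padicValInt p (X ^ 3 - Z ^ 2) := by
          rw [← hn, e1, padicValInt.mul (pow_ne_zero _ hp'.ne_zero) (sub_ne_zero.2 hk'),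
            ← Nat.cast_pow, padicValInt.of_nat, padicValNat.prime_pow]
        obtain ⟨-, k1, k2⟩ := ih _ (by omega) (e / p) X Z rfl (by
          push_cast at he
          field_simp
          linear_combination he) (fun q h => hq (q * p) (by push_cast; rw [← h]; field_simp)) hk'
        refine ⟨by omega, ?_⟩
        rw [e2, pow_add, show ((p : ℤ) * (p * X)) ^ 3 = (p : ℤ) ^ 6 * X ^ 3 by ring]
        exact mul_dvd_mul_left _ k2
      · have e1 : ((p : ℤ) * (p * X)) ^ 3 - (p * (p * Z)) ^ 2 =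
            (p : ℤ) ^ 4 * (p * (p * X ^ 3) - Z ^ 2) := by ring
        rw [e1, val_eq hp 4 fun h =>
          c3 (hp'.dvd_of_dvd_pow ((dvd_sub_right (dvd_mul_right _ _)).1 h))] at hn
        subst hn
        exact ⟨by norm_num, (p : ℤ) ^ 2 * X ^ 3, by ring⟩
    · have e1 : ((p : ℤ) * X) ^ 3 - (p * (p * Z)) ^ 2 =
          (p : ℤ) ^ 3 * (X ^ 3 - p * Z ^ 2) := by ring
      rw [e1, val_eq hp 3 fun h =>
        c2 (hp'.dvd_of_dvd_pow ((dvd_sub_left (dvd_mul_right _ _)).1 h))] at hn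
      omega
  · have e1 : ((p : ℤ) * X) ^ 3 - (p * Y) ^ 2 = (p : ℤ) ^ 2 * (p * X ^ 3 - Y ^ 2) := by ring
    rw [e1, val_eq hp 2 fun h =>
      c1 (hp'.dvd_of_dvd_pow ((dvd_sub_right (dvd_mul_right _ _)).1 h))] at hn
    subst hn
    exact ⟨by norm_num, (p : ℤ) * X ^ 3, by ring⟩

open Classical in
/-- the sharp product -/
noncomputable def MM (x D : ℤ) : ℕ := ∏ p ∈ D.natAbs.primeFactors,
  if Odd (padicValInt p D) then p
  else if ¬ 3 ∣ padicValInt p D ∧ (p : ℤ) ^ padicValInt p D ∣ x ^ 3 then p ^ 2 else 1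

theorem MM_pos (x D : ℤ) : 0 < MM x D :=
  Finset.prod_pos fun p hp => by
    have := (Nat.prime_of_mem_primeFactors hp).pos
    split_ifs <;> positivity

theorem val_D {p : ℕ} (hp : p.Prime) (n2 : ¬ (p : ℤ) ∣ 2) (n3 : ¬ (p : ℤ) ∣ 3) {k D : ℤ}
    (hD : D ≠ 0) (h : 1728 * D = k) : padicValInt p k = padicValInt p D := by
  have := Fact.mk hp
  rw [← h, padicValInt.mul (by norm_num) hD,
    padicValInt.eq_zero_of_not_dvd (by simpa using nd hp n2 n3 6 3), zero_add]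

theorem dvd_MM {p : ℕ} (hp : p.Prime) (x : ℤ) {D : ℤ} (hD : D ≠ 0) :
    (Odd (padicValInt p D) → p ∣ MM x D) ∧ (¬ Odd (padicValInt p D) → ¬ 3 ∣ padicValInt p D →
      (p : ℤ) ^ padicValInt p D ∣ x ^ 3 → p ^ 2 ∣ MM x D) := by
  classical
  have key : padicValInt p D ≠ 0 → p ∈ D.natAbs.primeFactors := fun h =>
    Nat.mem_primeFactors.2 ⟨hp, Int.natCast_dvd.1 (by
      by_contra h1
      exact h (padicValInt.eq_zero_of_not_dvd h1)), Int.natAbs_ne_zero.2 hD⟩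
  constructor
  · intro h
    have := Finset.dvd_prod_of_mem (fun p : ℕ => if Odd (padicValInt p D) then p
      else if ¬ 3 ∣ padicValInt p D ∧ (p : ℤ) ^ padicValInt p D ∣ x ^ 3 then p ^ 2 else 1)
      (key h.pos.ne')
    rw [if_pos h] at this
    unfold MM
    convert this
  · intro h1 h2 h3
    have := Finset.dvd_prod_of_mem (fun p : ℕ => if Odd (padicValInt p D) then p
      else if ¬ 3 ∣ padicValInt p D ∧ (p : ℤ) ^ padicValInt p D ∣ x ^ 3 then p ^ 2 else 1)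
      (key fun h => h2 (h ▸ dvd_zero _))
    rw [if_neg h1, if_pos ⟨h2, h3⟩] at this
    unfold MM
    convert this

theorem d3s (hL : Module.finrank ℚ L = 3) {e : L} {x y D : ℤ}
    (he : e ^ 3 - 3 * x * e + 2 * y = 0) (hq : ∀ q : ℚ, e ≠ q) (hD : D ≠ 0)
    (h : 1728 * D = x ^ 3 - y ^ 2) : (discr L).natAbs ≤ 6 ^ 5 * MM x D := by
  have hk0 : x ^ 3 - y ^ 2 ≠ 0 := by omega
  have hk : x ^ 3 ≠ y ^ 2 := sub_ne_zero.1 hk0
  have hF : Fm L 1 0 (-3 * x) (2 * y) := ⟨e, hq, by push_cast; linear_combination he⟩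
  have eD : ds 1 0 (-3 * x) (2 * y) = 108 * (x ^ 3 - y ^ 2) := by unfold ds; ring
  have h0 : ds 1 0 (-3 * x) (2 * y) ≠ 0 := by rw [eD]; exact mul_ne_zero (by norm_num) hk0
  refine Nat.le_of_dvd (Nat.mul_pos (by norm_num) (MM_pos _ _)) ?_
  rw [Nat.dvd_iff_prime_pow_dvd_dvd]
  intro p j hp hj
  have hj' : ∀ i, i ≤ j → (p : ℤ) ^ i ∣ discr L := fun i hi => by
    have := (pow_dvd_pow p hi).trans hj
    rw [← Int.natCast_dvd] at this
    exact_mod_cast this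
  by_cases h2 : p = 2
  · subst h2
    have : j ≤ 5 := by
      by_contra h
      exact desc hL hp (m := 6) (by norm_num) val_two _ _ _ _ _ rfl h0 hF (hj' 6 (by omega))
    exact ((pow_dvd_pow 2 this).trans (by norm_num)).mul_right _
  by_cases h3 : p = 3
  · subst h3
    have : j ≤ 5 := by
      by_contra h
      exact desc hL hp (m := 6) (by norm_num) val_three _ _ _ _ _ rfl h0 hF (hj' 6 (by omega))
    exact ((pow_dvd_pow 3 this).trans (by norm_num)).mul_right _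
  have n2 : ¬ (p : ℤ) ∣ 2 := fun h =>
    h2 ((Nat.prime_dvd_prime_iff_eq hp Nat.prime_two).1 (by exact_mod_cast h))
  have n3 : ¬ (p : ℤ) ∣ 3 := fun h =>
    h3 ((Nat.prime_dvd_prime_iff_eq hp Nat.prime_three).1 (by exact_mod_cast h))
  obtain ⟨⟨t, ht⟩, c3, -, -⟩ := par hL hp n2 n3 he hq hk
  have hv := val_D hp n2 n3 hD h
  have hj2 : j ≤ 2 := by
    by_contra hh
    exact c3 (hj' 3 (by omega))
  refine Dvd.dvd.mul_left ?_ _
  rcases Nat.eq_zero_or_pos j with rfl | hj0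
  · simp
  by_cases c2 : (p : ℤ) ^ 2 ∣ discr L
  · obtain ⟨k0, k1, k2⟩ := sharp hL hp n2 n3 c2 _ e x y hv he hq hk
    exact (pow_dvd_pow p hj2).trans ((dvd_MM hp x hD).2 k0 k1 k2)
  · obtain rfl : j = 1 := by
      by_contra hh
      exact c2 (hj' 2 (by omega))
    rw [val_of hp 1 (hj' 1 le_rfl) c2, hv] at ht
    rw [pow_one]
    exact (dvd_MM hp x hD).1 ⟨t, ht⟩

end Pool.Agent.MP_542436_nt.SZ19
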